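import Pool.Agent.Helper74.EV2.Top

/-!
# From the growth near infinity to the hypotheses on the roots and the second coefficient
-/

set_option autoImplicit false

namespace Pool.Agent.Helper74.EV2

open Polynomial

/-- every complex number is `1/s - s` with `|s| ≤ 1` -/
theorem exists_s' (z : ℂ) : ∃ s : ℂ, s ≠ 0 ∧ ‖s‖ ≤ 1 ∧ z = s⁻¹ - s := by
  obtain ⟨d, hd⟩ := IsAlgClosed.exists_pow_nat_eq (z ^ 2 + 4) (n := 2) (by norm_num)
  have key : ∀ s : ℂ, s ^ 2 + z * s - 1 = 0 → s ≠ 0 ∧ z = s⁻¹ - s := by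
    intro s hs
    have h0 : s ≠ 0 := by
      rintro rfl
      simp at hs
    refine ⟨h0, ?_⟩
    have e : z * s = 1 - s ^ 2 := by linear_combination hs
    apply mul_right_cancel₀ h0
    rw [e, sub_mul, inv_mul_cancel₀ h0]
    ring
  have r1 : ((-z + d) / 2) ^ 2 + z * ((-z + d) / 2) - 1 = 0 := by
    linear_combination hd / 4
  have r2 : ((-z - d) / 2) ^ 2 + z * ((-z - d) / 2) - 1 = 0 := by
    linear_combination hd / 4
  have hp : ((-z + d) / 2) * ((-z - d) / 2) = -1 := by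
    linear_combination -hd / 4
  have hn : ‖(-z + d) / 2‖ * ‖(-z - d) / 2‖ = 1 := by
    rw [← norm_mul, hp]
    simp
  by_cases h : ‖(-z + d) / 2‖ ≤ 1
  · exact ⟨_, (key _ r1).1, h, (key _ r1).2⟩
  · refine ⟨_, (key _ r2).1, ?_, (key _ r2).2⟩
    push Not at h
    by_contra h'
    push Not at h'
    nlinarith

section roots

variable (P : ℝ[X])

/-- the complex roots -/
noncomputable def rts : Multiset ℂ := (P.map (algebraMap ℝ ℂ)).roots

theorem card_rts : Multiset.card (rts P) = P.natDegree := by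
  unfold rts
  rw [IsAlgClosed.card_roots_eq_natDegree, natDegree_map]

theorem aeval_eq_prod (t : ℂ) :
    aeval t P = P.leadingCoeff * ((rts P).map fun a => t - a).prod := by
  have h1 := (IsAlgClosed.splits (P.map (algebraMap ℝ ℂ))).eval_eq_prod_roots t
  rw [eval_map_algebraMap] at h1
  rw [h1, leadingCoeff_map]
  rfl

theorem second_coeff (h1 : 1 ≤ P.natDegree) :
    (P.coeff (P.natDegree - 1) : ℂ) = -(P.leadingCoeff * (rts P).sum) := by
  have hdeg : (P.map (algebraMap ℝ ℂ)).natDegree = P.natDegree := natDegree_map _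
  have hcard : Multiset.card (P.map (algebraMap ℝ ℂ)).roots =
      (P.map (algebraMap ℝ ℂ)).natDegree := IsAlgClosed.card_roots_eq_natDegree
  have h2 := Polynomial.coeff_eq_esymm_roots_of_card hcard
    (show P.natDegree - 1 ≤ (P.map (algebraMap ℝ ℂ)).natDegree by rw [hdeg]; omega)
  rw [hdeg, show P.natDegree - (P.natDegree - 1) = 1 by omega, leadingCoeff_map, coeff_map] at h2
  have h3 : (P.map (algebraMap ℝ ℂ)).roots.esymm 1 = (rts P).sum := by
    unfold rts Multiset.esymm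
    rw [Multiset.powersetCard_one, Multiset.map_map]
    simp
  rw [h3] at h2
  change (P.coeff (P.natDegree - 1) : ℂ) = P.leadingCoeff * (-1) ^ 1 * (rts P).sum at h2
  rw [h2]
  ring

end roots

theorem norm_one_sub_sq_le (w : ℂ) : ‖1 - w‖ ^ 2 ≤ Real.exp (-2 * w.re + ‖w‖ ^ 2) := by
  have h1 : ‖1 - w‖ ^ 2 = 1 + (-2 * w.re + ‖w‖ ^ 2) := by
    rw [← Complex.normSq_eq_norm_sq, ← Complex.normSq_eq_norm_sq, Complex.normSq_apply,
      Complex.normSq_apply]
    simp
    ring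
  rw [h1]
  have := Real.add_one_le_exp (-2 * w.re + ‖w‖ ^ 2)
  linarith

/-- upper bound of a product of linear factors -/
theorem prod_upper {T t : ℝ} (ht : 0 < t) (s : Multiset ℂ) (hs : ∀ a ∈ s, ‖a‖ ≤ T) :
    ‖(s.map fun a => (t : ℂ) - a).prod‖ ^ 2 ≤ t ^ (2 * Multiset.card s) *
      Real.exp (-2 * s.sum.re / t + Multiset.card s * (T / t) ^ 2) := by
  induction s using Multiset.induction_on with
  | empty => simp
  | cons a s ih =>
    have h1 := ih fun b hb => hs b (Multiset.mem_cons_of_mem hb)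
    have h2 : ‖(t : ℂ) - a‖ ^ 2 ≤ t ^ 2 * Real.exp (-2 * a.re / t + (T / t) ^ 2) := by
      have e : (t : ℂ) - a = t * (1 - a / t) := by
        have : (t : ℂ) ≠ 0 := by exact_mod_cast ht.ne'
        field_simp
      rw [e, norm_mul, mul_pow, Complex.norm_real, Real.norm_eq_abs, sq_abs]
      refine mul_le_mul_of_nonneg_left ?_ (by positivity)
      refine (norm_one_sub_sq_le _).trans ?_
      rw [Real.exp_le_exp]
      have e2 : (a / t : ℂ).re = a.re / t := by
        rw [Complex.div_ofReal_re]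
      have e3 : ‖(a / t : ℂ)‖ = ‖a‖ / t := by
        rw [norm_div, Complex.norm_real, Real.norm_eq_abs, abs_of_pos ht]
      rw [e2, e3]
      have e4 : (‖a‖ / t) ^ 2 ≤ (T / t) ^ 2 :=
        pow_le_pow_left₀ (by positivity)
          (div_le_div_of_nonneg_right (hs a (Multiset.mem_cons_self _ _)) ht.le) 2
      have e5 : -2 * (a.re / t) = -2 * a.re / t := by ring
      rw [e5]
      linarith
    rw [Multiset.map_cons, Multiset.prod_cons, Multiset.sum_cons, Multiset.card_cons, norm_mul,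
      mul_pow]
    calc ‖(t : ℂ) - a‖ ^ 2 * ‖(s.map fun a => (t : ℂ) - a).prod‖ ^ 2
        ≤ (t ^ 2 * Real.exp (-2 * a.re / t + (T / t) ^ 2)) * (t ^ (2 * Multiset.card s) *
          Real.exp (-2 * s.sum.re / t + Multiset.card s * (T / t) ^ 2)) :=
          mul_le_mul h2 h1 (by positivity) (by positivity)
      _ = (t ^ 2 * t ^ (2 * Multiset.card s)) * (Real.exp (-2 * a.re / t + (T / t) ^ 2) *
          Real.exp (-2 * s.sum.re / t + Multiset.card s * (T / t) ^ 2)) := by ring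
      _ = _ := by
          rw [← Real.exp_add, ← pow_add]
          congr 2
          · ring
          · rw [Complex.add_re]
            push_cast
            ring

/-- lower bound of a product of linear factors -/
theorem prod_lower {T t : ℝ} (ht : T ≤ t) (s : Multiset ℂ) (hs : ∀ a ∈ s, ‖a‖ ≤ T) :
    (t - T) ^ (Multiset.card s) ≤ ‖(s.map fun a => (t : ℂ) - a).prod‖ := by
  induction s using Multiset.induction_on with
  | empty => simp
  | cons a s ih =>
    have h1 := ih fun b hb => hs b (Multiset.mem_cons_of_mem hb)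
    have h3 := hs a (Multiset.mem_cons_self _ _)
    have h2 : t - T ≤ ‖(t : ℂ) - a‖ := by
      have h4 := norm_sub_norm_le (t : ℂ) a
      rw [Complex.norm_real, Real.norm_eq_abs, abs_of_nonneg
        (by linarith [norm_nonneg a, hs a (Multiset.mem_cons_self _ _)])] at h4
      linarith
    rw [Multiset.map_cons, Multiset.prod_cons, Multiset.card_cons, norm_mul, pow_succ, mul_comm]
    exact mul_le_mul h2 h1 (pow_nonneg (by linarith) _) (norm_nonneg _)

/-- **Growth near infinity.** -/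
theorem top_of_growth {s1 c0 C0 : ℝ} (hs1 : 0 < s1) (hc0 : 0 < c0) (hC0 : 0 < C0) :
    ∃ T : ℝ, 1 ≤ T ∧ ∃ d0 : ℕ, ∀ P : ℝ[X], 0 < P.leadingCoeff → d0 ≤ P.natDegree →
      (∀ s : ℂ, s ≠ 0 → ‖s‖ ≤ s1 → c0 ≤ ‖aeval ((s⁻¹ - s) ^ 2) P‖ * ‖s‖ ^ (2 * P.natDegree) ∧
        ‖aeval ((s⁻¹ - s) ^ 2) P‖ * ‖s‖ ^ (2 * P.natDegree) ≤ C0) →
      (∀ z ∈ (P.map (algebraMap ℝ ℂ)).roots, ‖z‖ ≤ T) ∧
        1 * P.natDegree * P.leadingCoeff ≤ P.coeff (P.natDegree - 1) := by
  obtain ⟨T, hT⟩ : ∃ T : ℝ, T = (s1⁻¹ + 1) ^ 2 := ⟨_, rfl⟩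
  have hT1 : 1 ≤ T := by
    rw [hT]
    have : 0 < s1⁻¹ := by positivity
    nlinarith
  -- the fixed real parameter
  obtain ⟨σ, hσ0, hσ1, hσ4, hσT⟩ : ∃ σ : ℝ, 0 < σ ∧ σ ≤ s1 ∧ σ ≤ 1 / 4 ∧ 8 * T * σ ≤ 1 := by
    refine ⟨min s1 (min (1 / 4) (1 / (8 * T))), ?_, min_le_left _ _, ?_, ?_⟩
    · refine lt_min hs1 (lt_min (by norm_num) (by positivity))
    · exact (min_le_right _ _).trans (min_le_left _ _)
    · have h1 : min s1 (min (1 / 4) (1 / (8 * T))) ≤ 1 / (8 * T) :=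
        (min_le_right _ _).trans (min_le_right _ _)
      rw [le_div_iff₀ (by positivity)] at h1
      linarith
  obtain ⟨t, ht⟩ : ∃ t : ℝ, t = (σ⁻¹ - σ) ^ 2 := ⟨_, rfl⟩
  have hσi : 4 ≤ σ⁻¹ := by
    rw [le_inv_comm₀ (by norm_num) hσ0]
    norm_num
    linarith
  have hσT' : 8 * T ≤ σ⁻¹ := by
    rw [← one_div, le_div_iff₀ hσ0]
    linarith
  have hσσ : σ * σ⁻¹ = 1 := mul_inv_cancel₀ hσ0.ne'
  have h7 : 7 * T ≤ σ⁻¹ - σ := by linarith
  have ht49 : 49 * T ^ 2 ≤ t := by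
    rw [ht]
    nlinarith
  have ht0 : 0 < t := by nlinarith
  have hσt : σ ^ 2 * t = (1 - σ ^ 2) ^ 2 := by
    rw [ht]
    have : σ * (σ⁻¹ - σ) = 1 - σ ^ 2 := by rw [mul_sub, hσσ]; ring
    rw [← this]
    ring
  obtain ⟨lg, hlg⟩ : ∃ lg : ℝ, lg = |Real.log (c0 / C0)| := ⟨_, rfl⟩
  refine ⟨T, hT1, ⌈2 * t * lg⌉₊ + 1, ?_⟩
  intro P hlead hd hP
  have h0 : P ≠ 0 := by
    rintro rfl
    simp at hlead
  have hd1 : 1 ≤ P.natDegree := by omega
  have hdR : 2 * t * lg ≤ P.natDegree := by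
    have h1 : 2 * t * lg ≤ (⌈2 * t * lg⌉₊ : ℝ) := Nat.le_ceil _
    have h2 : (⌈2 * t * lg⌉₊ : ℝ) ≤ P.natDegree := by exact_mod_cast (by omega)
    linarith
  have hroots : ∀ z ∈ rts P, ‖z‖ ≤ T := by
    intro z hz
    obtain ⟨w, hw⟩ := IsAlgClosed.exists_pow_nat_eq z (n := 2) (by norm_num)
    obtain ⟨s, hs0, hs1', hsw⟩ := exists_s' w
    have hsn : 0 < ‖s‖ := norm_pos_iff.2 hs0
    rcases le_or_gt ‖s‖ s1 with h | h
    · exfalso
      have h1 := (hP s hs0 h).1
      rw [← hsw, hw] at h1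
      have h2 : aeval z P = 0 := by
        have h3 := (mem_roots (map_ne_zero h0)).1 hz
        rw [IsRoot.def, eval_map_algebraMap] at h3
        exact h3
      rw [h2, norm_zero, zero_mul] at h1
      linarith
    · have h1 : ‖w‖ ≤ s1⁻¹ + 1 := by
        rw [hsw]
        refine (norm_sub_le _ _).trans ?_
        rw [norm_inv]
        have : ‖s‖⁻¹ ≤ s1⁻¹ := inv_anti₀ hs1 h.le
        linarith
      rw [← hw, norm_pow, hT]
      exact pow_le_pow_left₀ (norm_nonneg _) h1 2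
  refine ⟨hroots, ?_⟩
  -- the leading coefficient is at most `C0`
  have hlC : P.leadingCoeff ≤ C0 := by
    have hcont : Filter.Tendsto (fun τ : ℝ => P.leadingCoeff *
        ((1 - τ ^ 2) ^ 2 - T * τ ^ 2) ^ P.natDegree) (nhdsWithin 0 (Set.Ioi 0))
        (nhds P.leadingCoeff) := by
      have h1 : Continuous (fun τ : ℝ => P.leadingCoeff *
        ((1 - τ ^ 2) ^ 2 - T * τ ^ 2) ^ P.natDegree) := by fun_prop
      have h2 := h1.tendsto 0
      have h3 : P.leadingCoeff * ((1 - (0 : ℝ) ^ 2) ^ 2 - T * (0 : ℝ) ^ 2) ^ P.natDegree =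
          P.leadingCoeff := by norm_num
      rw [h3] at h2
      exact h2.mono_left nhdsWithin_le_nhds
    refine le_of_tendsto hcont ?_
    have hev : ∀ᶠ τ in nhdsWithin (0 : ℝ) (Set.Ioi 0), τ ∈ Set.Ioo (0 : ℝ) (min s1 σ) :=
      Ioo_mem_nhdsGT (lt_min hs1 hσ0)
    filter_upwards [hev] with τ hτ
    obtain ⟨hτ0, hτ1⟩ := hτ
    have hτs : τ ≤ s1 := hτ1.le.trans (min_le_left _ _)
    have hτσ : τ ≤ σ := hτ1.le.trans (min_le_right _ _)
    have hττ : τ * τ⁻¹ = 1 := mul_inv_cancel₀ hτ0.ne'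
    obtain ⟨t', ht'⟩ : ∃ t' : ℝ, t' = (τ⁻¹ - τ) ^ 2 := ⟨_, rfl⟩
    have hi : σ⁻¹ ≤ τ⁻¹ := inv_anti₀ hτ0 hτσ
    have h7' : 7 * T ≤ τ⁻¹ - τ := by linarith
    have hTt' : T ≤ t' := by
      rw [ht']
      nlinarith
    have h1 := (hP (τ : ℂ) (by exact_mod_cast hτ0.ne') (by
      rw [Complex.norm_real, Real.norm_eq_abs, abs_of_pos hτ0]; exact hτs)).2
    have e1 : (((τ : ℂ)⁻¹ - τ) ^ 2) = (t' : ℂ) := by
      rw [ht']
      push_cast
      ring
    rw [e1, aeval_eq_prod, norm_mul, Complex.norm_real, Complex.norm_real, Real.norm_eq_abs,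
      Real.norm_eq_abs, abs_of_pos hτ0, abs_of_pos hlead] at h1
    have h2 := prod_lower hTt' (rts P) hroots
    rw [card_rts] at h2
    have e2 : (1 - τ ^ 2) ^ 2 - T * τ ^ 2 = (t' - T) * τ ^ 2 := by
      have : τ * (τ⁻¹ - τ) = 1 - τ ^ 2 := by rw [mul_sub, hττ]; ring
      rw [ht', ← this]
      ring
    rw [e2, mul_pow, ← pow_mul]
    calc P.leadingCoeff * ((t' - T) ^ P.natDegree * τ ^ (2 * P.natDegree))
        ≤ P.leadingCoeff * (‖((rts P).map fun a => (t' : ℂ) - a).prod‖ *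
            τ ^ (2 * P.natDegree)) := by
          refine mul_le_mul_of_nonneg_left ?_ hlead.le
          exact mul_le_mul_of_nonneg_right h2 (by positivity)
      _ ≤ C0 := by linarith
  -- the main inequality
  obtain ⟨S, hS⟩ : ∃ S : ℝ, S = -(rts P).sum.re := ⟨_, rfl⟩
  have hcoef : P.coeff (P.natDegree - 1) = P.leadingCoeff * S := by
    have h1 := congrArg Complex.re (second_coeff P hd1)
    rw [Complex.ofReal_re, Complex.neg_re, Complex.re_ofReal_mul] at h1
    rw [h1, hS]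
    ring
  have hmain : c0 ^ 2 ≤ C0 ^ 2 * Real.exp (-(4 * P.natDegree * σ ^ 2) + 2 * S / t +
      P.natDegree * (T / t) ^ 2) := by
    have h1 := (hP (σ : ℂ) (by exact_mod_cast hσ0.ne') (by
      rw [Complex.norm_real, Real.norm_eq_abs, abs_of_pos hσ0]; exact hσ1)).1
    have e1 : (((σ : ℂ)⁻¹ - σ) ^ 2) = (t : ℂ) := by
      rw [ht]
      push_cast
      ring
    rw [e1, aeval_eq_prod, norm_mul, Complex.norm_real, Complex.norm_real, Real.norm_eq_abs,
      Real.norm_eq_abs, abs_of_pos hσ0, abs_of_pos hlead] at h1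
    have h2 := prod_upper ht0 (rts P) hroots
    rw [card_rts] at h2
    obtain ⟨p, hp⟩ : ∃ p : ℝ, p = ‖((rts P).map fun a => (t : ℂ) - a).prod‖ := ⟨_, rfl⟩
    rw [← hp] at h1 h2
    have hp0 : 0 ≤ p := by rw [hp]; exact norm_nonneg _
    have h3 : c0 ≤ C0 * p * σ ^ (2 * P.natDegree) := by
      refine h1.trans ?_
      refine mul_le_mul_of_nonneg_right ?_ (by positivity)
      exact mul_le_mul_of_nonneg_right hlC hp0
    have h4 : c0 ^ 2 ≤ (C0 * p * σ ^ (2 * P.natDegree)) ^ 2 :=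
      pow_le_pow_left₀ hc0.le h3 2
    have h5 : (C0 * p * σ ^ (2 * P.natDegree)) ^ 2 = C0 ^ 2 * (p ^ 2 *
        (σ ^ (2 * P.natDegree)) ^ 2) := by ring
    rw [h5] at h4
    refine h4.trans (mul_le_mul_of_nonneg_left ?_ (by positivity))
    have h6 : (σ ^ (2 * P.natDegree)) ^ 2 = (σ ^ 2) ^ (2 * P.natDegree) := by
      rw [← pow_mul, ← pow_mul]
      ring_nf
    have h8 : (σ ^ 2 * t) ^ (2 * P.natDegree) ≤ Real.exp (-(4 * P.natDegree * σ ^ 2)) := by
      rw [hσt, ← pow_mul]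
      have h9 : 1 - σ ^ 2 ≤ Real.exp (-σ ^ 2) := by
        have := Real.add_one_le_exp (-σ ^ 2)
        linarith
      have h10 : (0 : ℝ) ≤ 1 - σ ^ 2 := by nlinarith
      refine (pow_le_pow_left₀ h10 h9 _).trans ?_
      rw [← Real.exp_nat_mul, Real.exp_le_exp]
      push_cast
      apply le_of_eq
      ring
    have e3 : -2 * (rts P).sum.re / t = 2 * S / t := by
      rw [hS]
      ring
    rw [e3] at h2
    calc p ^ 2 * (σ ^ (2 * P.natDegree)) ^ 2
        ≤ (t ^ (2 * P.natDegree) * Real.exp (2 * S / t + P.natDegree * (T / t) ^ 2)) *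
          (σ ^ 2) ^ (2 * P.natDegree) := by
          rw [h6]
          exact mul_le_mul_of_nonneg_right h2 (by positivity)
      _ = (σ ^ 2 * t) ^ (2 * P.natDegree) * Real.exp (2 * S / t + P.natDegree * (T / t) ^ 2) := by
          rw [mul_pow]
          ring
      _ ≤ Real.exp (-(4 * P.natDegree * σ ^ 2)) *
          Real.exp (2 * S / t + P.natDegree * (T / t) ^ 2) :=
          mul_le_mul_of_nonneg_right h8 (Real.exp_pos _).le
      _ = _ := by
          rw [← Real.exp_add]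
          congr 1
          ring
  have hlog : 2 * Real.log (c0 / C0) ≤ -(4 * P.natDegree * σ ^ 2) + 2 * S / t +
      P.natDegree * (T / t) ^ 2 := by
    have h1 : (c0 / C0) ^ 2 ≤ Real.exp (-(4 * P.natDegree * σ ^ 2) + 2 * S / t +
        P.natDegree * (T / t) ^ 2) := by
      rw [div_pow, div_le_iff₀ (by positivity), mul_comm]
      exact hmain
    have h2 := Real.log_le_log (by positivity) h1
    rw [Real.log_exp, Real.log_pow] at h2
    push_cast at h2
    exact h2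
  have hSd : (P.natDegree : ℝ) ≤ S := by
    have h1 : -lg ≤ Real.log (c0 / C0) := by rw [hlg]; exact neg_abs_le _
    have hdp : (0 : ℝ) < P.natDegree := by exact_mod_cast hd1
    -- multiply by `t / 2`
    have h2 : t * Real.log (c0 / C0) ≤ -(2 * P.natDegree * (σ ^ 2 * t)) + S +
        P.natDegree * (T ^ 2 / (2 * t)) := by
      have h3 := mul_le_mul_of_nonneg_left hlog (show (0 : ℝ) ≤ t / 2 by positivity)
      have e1 : t / 2 * (2 * Real.log (c0 / C0)) = t * Real.log (c0 / C0) := by ring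
      have e2 : t / 2 * (-(4 * P.natDegree * σ ^ 2) + 2 * S / t + P.natDegree * (T / t) ^ 2) =
          -(2 * P.natDegree * (σ ^ 2 * t)) + S + P.natDegree * (T ^ 2 / (2 * t)) := by
        field_simp
        try ring
      rw [e1, e2] at h3
      exact h3
    have h3 : T ^ 2 / (2 * t) ≤ 1 / 98 := by
      rw [div_le_div_iff₀ (by positivity) (by norm_num)]
      linarith
    have h4 : 7 / 8 ≤ σ ^ 2 * t := by
      rw [hσt]
      have h5 : σ ^ 2 ≤ 1 / 16 := by nlinarith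
      nlinarith
    have h5 : P.natDegree * (T ^ 2 / (2 * t)) ≤ P.natDegree * (1 / 98 : ℝ) :=
      mul_le_mul_of_nonneg_left h3 hdp.le
    have h6 : P.natDegree * (7 / 8 : ℝ) ≤ P.natDegree * (σ ^ 2 * t) :=
      mul_le_mul_of_nonneg_left h4 hdp.le
    have h7 : t * (-lg) ≤ t * Real.log (c0 / C0) := mul_le_mul_of_nonneg_left h1 ht0.le
    nlinarith
  rw [hcoef, one_mul, mul_comm]
  exact mul_le_mul_of_nonneg_left hSd hlead.le

/-- **Log-concavity of the top coefficients** from the growth near infinity only. -/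
theorem top_lc {s1 c0 C0 : ℝ} (hs1 : 0 < s1) (hc0 : 0 < c0) (hC0 : 0 < C0) :
    ∃ c4 : ℝ, 0 < c4 ∧ ∃ d0 : ℕ, ∀ P : ℝ[X], 0 < P.leadingCoeff → d0 ≤ P.natDegree →
      (∀ s : ℂ, s ≠ 0 → ‖s‖ ≤ s1 → c0 ≤ ‖aeval ((s⁻¹ - s) ^ 2) P‖ * ‖s‖ ^ (2 * P.natDegree) ∧
        ‖aeval ((s⁻¹ - s) ^ 2) P‖ * ‖s‖ ^ (2 * P.natDegree) ≤ C0) →
      ∀ k : ℕ, (P.natDegree : ℝ) ≤ k + c4 * P.natDegree →
        P.coeff (k - 1) * P.coeff (k + 1) ≤ P.coeff k ^ 2 := by
  obtain ⟨T, hT, d0, h⟩ := top_of_growth hs1 hc0 hC0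
  refine ⟨1 ^ 2 / (32 * T ^ 2), by positivity, d0, fun P hl hd hP k hk => ?_⟩
  obtain ⟨h1, h2⟩ := h P hl hd hP
  exact top_of_roots hT one_pos le_rfl P hl h1 h2 k hk

end Pool.Agent.Helper74.EV2
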