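import Mathlib

/-!
EV2, step (6a): a run of letters acting on the masses of `w` parallel strands is bounded
independently of its length, for every complex `s` with `‖s‖ ^ 2 + 2 * ‖s‖ ≤ 1`.
-/

namespace Pool.Agent.Helper74.EV2

open Finset

/-- partial sums of the masses of the strands `p, ..., p + j - 1` -/
def ps (y : ℕ → ℂ) (p j : ℕ) : ℂ := ∑ i ∈ range j, y (p + i)

/-- one event inside a group of `w` parallel strands starting at position `p`; either nothing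
changes, or the over strand goes from `p + k + 1` to `p + k` -/
def StepA (s : ℂ) (p w : ℕ) (y y' : ℕ → ℂ) : Prop :=
  (∀ i < w, y' (p + i) = y (p + i)) ∨
  ∃ k, k + 1 < w ∧ y' (p + k) = s ^ 2 * y (p + k + 1) ∧
    y' (p + k + 1) = y (p + k) + (1 - s ^ 2) * y (p + k + 1) ∧
    ∀ i < w, i ≠ k → i ≠ k + 1 → y' (p + i) = y (p + i)

/-- the same, the over strand goes from `p + k` to `p + k + 1` -/
def StepB (s : ℂ) (p w : ℕ) (y y' : ℕ → ℂ) : Prop :=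
  (∀ i < w, y' (p + i) = y (p + i)) ∨
  ∃ k, k + 1 < w ∧ y' (p + k + 1) = s ^ 2 * y (p + k) ∧
    y' (p + k) = y (p + k + 1) + (1 - s ^ 2) * y (p + k) ∧
    ∀ i < w, i ≠ k → i ≠ k + 1 → y' (p + i) = y (p + i)

lemma ps_succ (y : ℕ → ℂ) (p j : ℕ) : ps y p (j + 1) = ps y p j + y (p + j) := by
  unfold ps; rw [sum_range_succ]

lemma ps_zero (y : ℕ → ℂ) (p : ℕ) : ps y p 0 = 0 := by simp [ps]

lemma ps_congr {y y' : ℕ → ℂ} {p j : ℕ} (h : ∀ i < j, y' (p + i) = y (p + i)) :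
    ps y' p j = ps y p j := by
  unfold ps; exact sum_congr rfl (fun i hi => h i (mem_range.mp hi))

lemma ps_far {y y' : ℕ → ℂ} {p w k : ℕ} (_hk : k + 1 < w)
    (hm : y' (p + k) + y' (p + k + 1) = y (p + k) + y (p + k + 1))
    (h : ∀ i < w, i ≠ k → i ≠ k + 1 → y' (p + i) = y (p + i)) :
    ∀ j ≤ w, j ≠ k + 1 → ps y' p j = ps y p j := by
  intro j hj hjk
  rcases Nat.lt_or_ge j (k + 1) with h1 | h1
  · exact ps_congr (fun i hi => h i (by omega) (by omega) (by omega))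
  · have h2 : k + 2 ≤ j := by omega
    obtain ⟨d, rfl⟩ := Nat.exists_eq_add_of_le h2
    clear h1 h2 hjk
    induction d with
    | zero =>
        have e : ps y' p k = ps y p k :=
          ps_congr (fun i hi => h i (by omega) (by omega) (by omega))
        have h3 := ps_succ y' p (k + 1)
        have h4 := ps_succ y p (k + 1)
        have h5 := ps_succ y' p k
        have h6 := ps_succ y p k
        have a1 : p + (k + 1) = p + k + 1 := by ring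
        rw [a1] at h3 h4
        have a2 : k + 2 + 0 = k + 1 + 1 := by ring
        rw [a2, h3, h4, h5, h6, e]
        linear_combination hm
    | succ d ih =>
        have h3 := ps_succ y' p (k + 2 + d)
        have h4 := ps_succ y p (k + 2 + d)
        have a2 : k + 2 + (d + 1) = k + 2 + d + 1 := by ring
        rw [a2, h3, h4, ih (by omega), h (k + 2 + d) (by omega) (by omega) (by omega)]

lemma stepA_weight {s : ℂ} (hs : ‖s‖ ^ 2 + 2 * ‖s‖ ≤ 1) {p w : ℕ} {y y' : ℕ → ℂ}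
    (h : StepA s p w y y') {M : ℝ} (hM : 0 ≤ M)
    (hy : ∀ j ≤ w, ‖s‖ ^ j * ‖ps y p j‖ ≤ M) : ∀ j ≤ w, ‖s‖ ^ j * ‖ps y' p j‖ ≤ M := by
  intro j hj
  rcases h with h | ⟨k, hk, h1, h2, h3⟩
  · rw [ps_congr (fun i hi => h i (by omega))]; exact hy j hj
  by_cases hjk : j = k + 1
  · subst hjk
    have e : ps y' p k = ps y p k :=
      ps_congr (fun i hi => h3 i (by omega) (by omega) (by omega))
    have h4 := ps_succ y' p k
    have h5 := ps_succ y p (k + 1)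
    have a1 : p + (k + 1) = p + k + 1 := by ring
    rw [a1] at h5
    have h6 : ps y' p (k + 1) = ps y p k + s ^ 2 * (ps y p (k + 2) - ps y p (k + 1)) := by
      rw [h4, e, h1]
      have : ps y p (k + 2) = ps y p (k + 1) + y (p + k + 1) := h5
      rw [this]; ring
    have hn : ‖ps y' p (k + 1)‖ ≤ ‖ps y p k‖ + ‖s‖ ^ 2 * (‖ps y p (k + 2)‖ +
        ‖ps y p (k + 1)‖) := by
      rw [h6]
      refine (norm_add_le _ _).trans ?_
      rw [norm_mul, norm_pow]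
      gcongr
      exact norm_sub_le _ _
    have b0 := hy k (by omega)
    have b1 := hy (k + 1) (by omega)
    have b2 := hy (k + 2) (by omega)
    have hs0 : 0 ≤ ‖s‖ := norm_nonneg s
    calc ‖s‖ ^ (k + 1) * ‖ps y' p (k + 1)‖
        ≤ ‖s‖ ^ (k + 1) * (‖ps y p k‖ + ‖s‖ ^ 2 * (‖ps y p (k + 2)‖ +
        ‖ps y p (k + 1)‖)) := by gcongr
      _ = ‖s‖ * (‖s‖ ^ k * ‖ps y p k‖) + ‖s‖ * (‖s‖ ^ (k + 2) * ‖ps y p (k + 2)‖)
          + ‖s‖ ^ 2 * (‖s‖ ^ (k + 1) * ‖ps y p (k + 1)‖) := by ring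
      _ ≤ ‖s‖ * M + ‖s‖ * M + ‖s‖ ^ 2 * M := by gcongr
      _ = (‖s‖ ^ 2 + 2 * ‖s‖) * M := by ring
      _ ≤ 1 * M := by gcongr
      _ = M := one_mul M
  · rw [ps_far hk (by rw [h1, h2]; ring) h3 j hj hjk]; exact hy j hj

lemma stepB_weight {s : ℂ} (hs : ‖s‖ ^ 2 + 2 * ‖s‖ ≤ 1) {p w : ℕ} {y y' : ℕ → ℂ}
    (h : StepB s p w y y') {M : ℝ} (hM : 0 ≤ M)
    (hy : ∀ j ≤ w, ‖s‖ ^ (w - j) * ‖ps y p j‖ ≤ M) :
    ∀ j ≤ w, ‖s‖ ^ (w - j) * ‖ps y' p j‖ ≤ M := by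
  intro j hj
  rcases h with h | ⟨k, hk, h1, h2, h3⟩
  · rw [ps_congr (fun i hi => h i (by omega))]; exact hy j hj
  by_cases hjk : j = k + 1
  · subst hjk
    have e : ps y' p k = ps y p k :=
      ps_congr (fun i hi => h3 i (by omega) (by omega) (by omega))
    have h4 := ps_succ y' p k
    have h5 := ps_succ y p (k + 1)
    have h7 := ps_succ y p k
    have a1 : p + (k + 1) = p + k + 1 := by ring
    rw [a1] at h5
    have h6 : ps y' p (k + 1) = ps y p (k + 2) + s ^ 2 * (ps y p k - ps y p (k + 1)) := by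
      rw [h4, e, h2]
      have h8 : ps y p (k + 2) = ps y p (k + 1) + y (p + k + 1) := h5
      rw [h8, h7]; ring
    have hn : ‖ps y' p (k + 1)‖ ≤ ‖ps y p (k + 2)‖ + ‖s‖ ^ 2 * (‖ps y p k‖ +
        ‖ps y p (k + 1)‖) := by
      rw [h6]
      refine (norm_add_le _ _).trans ?_
      rw [norm_mul, norm_pow]
      gcongr
      exact norm_sub_le _ _
    have b0 := hy k (by omega)
    have b1 := hy (k + 1) (by omega)
    have b2 := hy (k + 2) (by omega)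
    have hs0 : 0 ≤ ‖s‖ := norm_nonneg s
    obtain ⟨d, hd⟩ := Nat.exists_eq_add_of_le (show k + 2 ≤ w by omega)
    have e0 : w - k = d + 2 := by omega
    have e1 : w - (k + 1) = d + 1 := by omega
    have e2 : w - (k + 2) = d := by omega
    rw [e0] at b0
    rw [e1] at b1
    rw [e2] at b2
    rw [e1]
    calc ‖s‖ ^ (d + 1) * ‖ps y' p (k + 1)‖
        ≤ ‖s‖ ^ (d + 1) * (‖ps y p (k + 2)‖ + ‖s‖ ^ 2 * (‖ps y p k‖ +
        ‖ps y p (k + 1)‖)) := by gcongr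
      _ = ‖s‖ * (‖s‖ ^ d * ‖ps y p (k + 2)‖) + ‖s‖ * (‖s‖ ^ (d + 2) * ‖ps y p k‖)
          + ‖s‖ ^ 2 * (‖s‖ ^ (d + 1) * ‖ps y p (k + 1)‖) := by ring
      _ ≤ ‖s‖ * M + ‖s‖ * M + ‖s‖ ^ 2 * M := by gcongr
      _ = (‖s‖ ^ 2 + 2 * ‖s‖) * M := by ring
      _ ≤ 1 * M := by gcongr
      _ = M := one_mul M
  · rw [ps_far hk (by rw [h1, h2]; ring) h3 j hj hjk]; exact hy j hj

/-- the constant of a run -/
noncomputable def runK (s : ℂ) (w : ℕ) : ℝ := 2 * (‖s‖⁻¹ ^ w * (w * 1))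

lemma ps_le {y : ℕ → ℂ} {p w : ℕ} {M : ℝ} (hM : 0 ≤ M) (hy : ∀ i < w, ‖y (p + i)‖ ≤ M) :
    ∀ j ≤ w, ‖ps y p j‖ ≤ w * M := by
  intro j hj
  unfold ps
  refine (norm_sum_le _ _).trans ?_
  calc ∑ i ∈ range j, ‖y (p + i)‖ ≤ ∑ _i ∈ range j, M :=
        sum_le_sum (fun i hi => hy i (by have := mem_range.mp hi; omega))
    _ = j * M := by simp
    _ ≤ w * M := by gcongr

lemma le_of_ps {y : ℕ → ℂ} {p w : ℕ} {M : ℝ} (hy : ∀ j ≤ w, ‖ps y p j‖ ≤ M) :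
    ∀ i < w, ‖y (p + i)‖ ≤ 2 * M := by
  intro i hi
  have h := ps_succ y p i
  have e : y (p + i) = ps y p (i + 1) - ps y p i := by rw [h]; ring
  rw [e]
  refine (norm_sub_le _ _).trans ?_
  have h1 := hy (i + 1) (by omega)
  have h2 := hy i (by omega)
  linarith

lemma one_le_inv_norm {s : ℂ} (hs0 : s ≠ 0) (hs : ‖s‖ ^ 2 + 2 * ‖s‖ ≤ 1) : 1 ≤ ‖s‖⁻¹ := by
  have h0 : 0 < ‖s‖ := norm_pos_iff.mpr hs0
  rw [one_le_inv₀ h0]
  nlinarith [sq_nonneg ‖s‖]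

/-- runs in which the over strand goes from the right to the left -/
theorem runA {s : ℂ} (hs0 : s ≠ 0) (hs : ‖s‖ ^ 2 + 2 * ‖s‖ ≤ 1) {p w L : ℕ}
    {y : ℕ → ℕ → ℂ} (h : ∀ l < L, StepA s p w (y l) (y (l + 1))) {M : ℝ} (hM : 0 ≤ M)
    (hy : ∀ i < w, ‖y 0 (p + i)‖ ≤ M) :
    ∀ l ≤ L, ∀ i < w, ‖y l (p + i)‖ ≤ runK s w * M := by
  have h0 : 0 < ‖s‖ := norm_pos_iff.mpr hs0
  have hs1 : ‖s‖ ≤ 1 := by nlinarith [sq_nonneg ‖s‖]
  have hwM : 0 ≤ w * M := by positivity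
  have key : ∀ l ≤ L, ∀ j ≤ w, ‖s‖ ^ j * ‖ps (y l) p j‖ ≤ w * M := by
    intro l
    induction l with
    | zero =>
        intro _ j hj
        have h1 := ps_le hM hy j hj
        calc ‖s‖ ^ j * ‖ps (y 0) p j‖ ≤ 1 * (w * M) := by
              gcongr
              exact pow_le_one₀ h0.le hs1
          _ = w * M := one_mul _
    | succ l ih =>
        intro hl
        exact stepA_weight hs (h l (by omega)) hwM (ih (by omega))
  intro l hl i hi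
  have h2 : ∀ j ≤ w, ‖ps (y l) p j‖ ≤ ‖s‖⁻¹ ^ w * (w * M) := by
    intro j hj
    have h3 := key l hl j hj
    have h4 : ‖s‖ ^ w ≤ ‖s‖ ^ j := pow_le_pow_of_le_one h0.le hs1 hj
    have h5 : ‖s‖ ^ w * ‖ps (y l) p j‖ ≤ w * M :=
      le_trans (by gcongr) h3
    have h6 : ‖s‖⁻¹ ^ w * (‖s‖ ^ w * ‖ps (y l) p j‖) = ‖ps (y l) p j‖ := by
      rw [← mul_assoc, ← mul_pow, inv_mul_cancel₀ h0.ne', one_pow, one_mul]
    rw [← h6]
    gcongr
  have h7 := le_of_ps h2 i hi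
  refine h7.trans (le_of_eq ?_)
  unfold runK; ring

/-- runs in which the over strand goes from the left to the right -/
theorem runB {s : ℂ} (hs0 : s ≠ 0) (hs : ‖s‖ ^ 2 + 2 * ‖s‖ ≤ 1) {p w L : ℕ}
    {y : ℕ → ℕ → ℂ} (h : ∀ l < L, StepB s p w (y l) (y (l + 1))) {M : ℝ} (hM : 0 ≤ M)
    (hy : ∀ i < w, ‖y 0 (p + i)‖ ≤ M) :
    ∀ l ≤ L, ∀ i < w, ‖y l (p + i)‖ ≤ runK s w * M := by
  have h0 : 0 < ‖s‖ := norm_pos_iff.mpr hs0
  have hs1 : ‖s‖ ≤ 1 := by nlinarith [sq_nonneg ‖s‖]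
  have hwM : 0 ≤ w * M := by positivity
  have key : ∀ l ≤ L, ∀ j ≤ w, ‖s‖ ^ (w - j) * ‖ps (y l) p j‖ ≤ w * M := by
    intro l
    induction l with
    | zero =>
        intro _ j hj
        have h1 := ps_le hM hy j hj
        calc ‖s‖ ^ (w - j) * ‖ps (y 0) p j‖ ≤ 1 * (w * M) := by
              gcongr
              exact pow_le_one₀ h0.le hs1
          _ = w * M := one_mul _
    | succ l ih =>
        intro hl
        exact stepB_weight hs (h l (by omega)) hwM (ih (by omega))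
  intro l hl i hi
  have h2 : ∀ j ≤ w, ‖ps (y l) p j‖ ≤ ‖s‖⁻¹ ^ w * (w * M) := by
    intro j hj
    have h3 := key l hl j hj
    have h4 : ‖s‖ ^ w ≤ ‖s‖ ^ (w - j) := pow_le_pow_of_le_one h0.le hs1 (Nat.sub_le w j)
    have h5 : ‖s‖ ^ w * ‖ps (y l) p j‖ ≤ w * M :=
      le_trans (by gcongr) h3
    have h6 : ‖s‖⁻¹ ^ w * (‖s‖ ^ w * ‖ps (y l) p j‖) = ‖ps (y l) p j‖ := by
      rw [← mul_assoc, ← mul_pow, inv_mul_cancel₀ h0.ne', one_pow, one_mul]
    rw [← h6]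
    gcongr
  have h7 := le_of_ps h2 i hi
  refine h7.trans (le_of_eq ?_)
  unfold runK; ring

end Pool.Agent.Helper74.EV2
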