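import Pool.Agent.Helper74.EV2.Newton

/-!
# The top coefficients of a real polynomial whose roots are bounded
-/

set_option autoImplicit false

namespace Pool.Agent.Helper74.EV2

open Polynomial Pool.Agent.Helper49.ZB

/-- power sums of the roots and the coefficients, from the top -/
theorem newton_poly (P : ℝ[X]) (h0 : P ≠ 0) {T : ℝ} (hT : 0 ≤ T)
    (hroots : ∀ z ∈ (P.map (algebraMap ℝ ℂ)).roots, ‖z‖ ≤ T) :
    ∃ p : ℕ → ℝ, (∀ m, |p (m + 1)| ≤ P.natDegree * T ^ (m + 1)) ∧
      ∀ k : ℕ, ((k : ℝ) + 1) * (if k + 1 ≤ P.natDegree then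
          P.coeff (P.natDegree - (k + 1)) / P.leadingCoeff else 0) =
        ∑ i ∈ Finset.range (k + 1), (-1) ^ i * p (i + 1) * (if k - i ≤ P.natDegree then
          P.coeff (P.natDegree - (k - i)) / P.leadingCoeff else 0) := by
  classical
  set Q : ℂ[X] := P.map (algebraMap ℝ ℂ) with hQ
  have hdeg : Q.natDegree = P.natDegree := natDegree_map _
  have hlc : Q.leadingCoeff = (P.leadingCoeff : ℂ) := by
    rw [hQ, leadingCoeff_map]
    rfl
  have ha : P.leadingCoeff ≠ 0 := leadingCoeff_ne_zero.2 h0
  have haC : (P.leadingCoeff : ℂ) ≠ 0 := by exact_mod_cast ha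
  have hcard : Multiset.card Q.roots = Q.natDegree := IsAlgClosed.card_roots_eq_natDegree
  obtain ⟨e, he⟩ : ∃ e : ℕ → ℝ, e = fun k => if k ≤ P.natDegree then
      P.coeff (P.natDegree - k) / P.leadingCoeff else 0 := ⟨_, rfl⟩
  have hes : ∀ k, (e k : ℂ) = (-1) ^ k * Q.roots.esymm k := by
    intro k
    rw [he]
    simp only
    rcases Nat.lt_or_ge P.natDegree k with h | h
    · rw [if_neg (by omega)]
      have : Q.roots.esymm k = 0 := by
        unfold Multiset.esymm
        rw [Multiset.powersetCard_eq_empty k (by rw [hcard, hdeg]; exact h)]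
        simp
      rw [this]
      simp
    · rw [if_pos h]
      have h1 := Polynomial.coeff_eq_esymm_roots_of_card hcard
        (show P.natDegree - k ≤ Q.natDegree by rw [hdeg]; omega)
      rw [hlc, hdeg, show P.natDegree - (P.natDegree - k) = k by omega] at h1
      have h2 : Q.coeff (P.natDegree - k) = (P.coeff (P.natDegree - k) : ℂ) := by
        rw [hQ, coeff_map]
        rfl
      rw [h2] at h1
      push_cast
      rw [h1]
      field_simp
  refine ⟨fun m => ((Q.roots.map fun t => (-t) ^ m).sum).re, ?_, ?_⟩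
  · intro m
    have h1 : ∀ s : Multiset ℂ, (∀ t ∈ s, ‖t‖ ≤ T) →
        ‖(s.map fun t => (-t) ^ (m + 1)).sum‖ ≤ Multiset.card s * T ^ (m + 1) := by
      intro s
      induction s using Multiset.induction_on with
      | empty => simp
      | cons a s ih =>
        intro h
        rw [Multiset.map_cons, Multiset.sum_cons, Multiset.card_cons]
        have h2 := ih fun t ht => h t (Multiset.mem_cons_of_mem ht)
        have h3 : ‖(-a) ^ (m + 1)‖ ≤ T ^ (m + 1) := by
          rw [norm_pow, norm_neg]
          exact pow_le_pow_left₀ (norm_nonneg _) (h a (Multiset.mem_cons_self _ _)) _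
        refine (norm_add_le _ _).trans ?_
        push_cast
        linarith
    have h2 := h1 Q.roots hroots
    rw [hcard, hdeg] at h2
    exact (Complex.abs_re_le_norm _).trans h2
  · intro k
    have h1 := newton_multiset Q.roots k
    have h2 : ((k : ℂ) + 1) * (e (k + 1) : ℂ) = ∑ i ∈ Finset.range (k + 1),
        (-1) ^ i * (Q.roots.map fun t => (-t) ^ (i + 1)).sum * (e (k - i) : ℂ) := by
      rw [hes (k + 1)]
      calc ((k : ℂ) + 1) * ((-1) ^ (k + 1) * Q.roots.esymm (k + 1))
          = (-1) ^ (k + 1) * (((k : ℂ) + 1) * Q.roots.esymm (k + 1)) := by ring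
        _ = _ := by
          rw [h1, Finset.mul_sum]
          refine Finset.sum_congr rfl fun i hi => ?_
          rw [Finset.mem_range] at hi
          rw [hes (k - i)]
          have h3 : (Q.roots.map fun t => (-t) ^ (i + 1)).sum =
              (-1) ^ (i + 1) * (Q.roots.map fun t => t ^ (i + 1)).sum := by
            rw [← Multiset.sum_map_mul_left]
            congr 1
            refine Multiset.map_congr rfl fun t _ => ?_
            rw [neg_pow]
          rw [h3]
          obtain ⟨j, rfl⟩ : ∃ j, k = i + j := ⟨k - i, by omega⟩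
          rw [show i + j - i = j by omega]
          have h4 : ((-1 : ℂ) ^ i) * (-1) ^ i = 1 := by
            rw [← mul_pow]
            simp
          calc (-1 : ℂ) ^ (i + j + 1) * ((-1) ^ i * (Q.roots.map fun t => t ^ (i + 1)).sum *
                Q.roots.esymm j) = ((-1 : ℂ) ^ i * (-1) ^ i) * ((-1) ^ (j + 1) *
                (Q.roots.map fun t => t ^ (i + 1)).sum * Q.roots.esymm j) := by ring
            _ = ((-1 : ℂ) ^ i * (-1) ^ i) * ((-1) * (Q.roots.map fun t => t ^ (i + 1)).sum *
                ((-1) ^ j * Q.roots.esymm j)) := by ring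
            _ = (-1) ^ i * ((-1) ^ (i + 1) * (Q.roots.map fun t => t ^ (i + 1)).sum) *
                ((-1) ^ j * Q.roots.esymm j) := by ring
    have h5 := congrArg Complex.re h2
    rw [Complex.re_sum] at h5
    have h6 : (((k : ℂ) + 1) * (e (k + 1) : ℂ)).re = ((k : ℝ) + 1) * e (k + 1) := by
      have : ((k : ℂ) + 1) * (e (k + 1) : ℂ) = (((k : ℝ) + 1) * e (k + 1) : ℝ) := by
        push_cast
        ring
      rw [this, Complex.ofReal_re]
    rw [h6] at h5
    have h8 : ∀ k, e k = if k ≤ P.natDegree then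
        P.coeff (P.natDegree - k) / P.leadingCoeff else 0 := fun k => by rw [he]
    rw [← h8, h5]
    refine Finset.sum_congr rfl fun i _ => ?_
    rw [← h8]
    have h7 : ((-1 : ℂ) ^ i) = (((-1 : ℝ) ^ i : ℝ) : ℂ) := by
      push_cast
      rfl
    rw [h7, Complex.re_mul_ofReal, Complex.re_ofReal_mul]

/-- **Top coefficients.** Roots of modulus at most `T` and a lower bound for the second
coefficient give log-concavity of a positive proportion of the coefficients, from the top. -/
theorem top_of_roots {T c : ℝ} (hT : 1 ≤ T) (hc : 0 < c) (hc1 : c ≤ 1) (P : ℝ[X])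
    (hlead : 0 < P.leadingCoeff) (hroots : ∀ z ∈ (P.map (algebraMap ℝ ℂ)).roots, ‖z‖ ≤ T)
    (hsec : c * P.natDegree * P.leadingCoeff ≤ P.coeff (P.natDegree - 1)) (k : ℕ)
    (hk : (P.natDegree : ℝ) ≤ k + c ^ 2 / (32 * T ^ 2) * P.natDegree) :
    P.coeff (k - 1) * P.coeff (k + 1) ≤ P.coeff k ^ 2 := by
  rcases Nat.lt_or_ge k P.natDegree with hkd | hkd
  swap
  · rw [P.coeff_eq_zero_of_natDegree_lt (by omega : P.natDegree < k + 1), mul_zero]
    positivity
  have h0 : P ≠ 0 := by
    rintro rfl
    simp at hlead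
  have hd : 1 ≤ P.natDegree := by omega
  have hdR : (1 : ℝ) ≤ P.natDegree := by exact_mod_cast hd
  have hT2 : 1 ≤ T ^ 2 := one_le_pow₀ hT
  have hκ : c ^ 2 / (32 * T ^ 2) < 1 := by
    rw [div_lt_one (by positivity)]
    nlinarith
  have hk1 : 1 ≤ k := by
    rcases Nat.eq_zero_or_pos k with h | h
    · exfalso
      rw [h, Nat.cast_zero, zero_add] at hk
      nlinarith
    · exact h
  obtain ⟨p, hp, hN⟩ := newton_poly P h0 (by linarith) hroots
  obtain ⟨e, he⟩ : ∃ e : ℕ → ℝ, e = fun k => if k ≤ P.natDegree then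
      P.coeff (P.natDegree - k) / P.leadingCoeff else 0 := ⟨_, rfl⟩
  have hek : ∀ j, j ≤ P.natDegree → e j = P.coeff (P.natDegree - j) / P.leadingCoeff := by
    intro j hj
    rw [he]
    exact if_pos hj
  have he0 : e 0 = 1 := by
    rw [hek 0 (Nat.zero_le _), Nat.sub_zero]
    exact div_self hlead.ne'
  have hlam : c * P.natDegree ≤ e 1 := by
    rw [hek 1 hd, le_div_iff₀ hlead]
    exact hsec
  have hlam0 : 0 < e 1 := lt_of_lt_of_le (by positivity) hlam
  have key := lc_newton (e := e) (p := p) (lam := e 1) (A := 1 / c) (T := T) hlam0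
    (by rw [le_div_iff₀ hc]; linarith) hT he0 rfl (by
      intro m
      refine (hp m).trans (mul_le_mul_of_nonneg_right ?_ (by positivity))
      rw [div_mul_eq_mul_div, one_mul, le_div_iff₀ hc]
      linarith) (by
      intro k
      have := hN k
      rw [he]
      exact this) (P.natDegree - k - 1) (by
      have h1 : ((P.natDegree - k - 1 : ℕ) : ℝ) + 1 = (P.natDegree : ℝ) - k := by
        have h2 : ((P.natDegree - k - 1 : ℕ) : ℝ) + 1 = ((P.natDegree - k - 1 + 1 : ℕ) : ℝ) := by
          push_cast
          ring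
        rw [h2, show P.natDegree - k - 1 + 1 = P.natDegree - k by omega, Nat.cast_sub hkd.le]
      rw [h1]
      have h2 : (P.natDegree : ℝ) - k ≤ c ^ 2 / (32 * T ^ 2) * P.natDegree := by linarith
      have h3 : 0 < 32 * (1 / c) * T ^ 2 := by positivity
      calc 32 * (1 / c) * T ^ 2 * ((P.natDegree : ℝ) - k)
          ≤ 32 * (1 / c) * T ^ 2 * (c ^ 2 / (32 * T ^ 2) * P.natDegree) :=
            mul_le_mul_of_nonneg_left h2 h3.le
        _ = c * P.natDegree := by
            field_simp
        _ ≤ e 1 := hlam)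
  rw [show P.natDegree - k - 1 + 2 = P.natDegree - (k - 1) by omega,
    show P.natDegree - k - 1 + 1 = P.natDegree - k by omega,
    hek _ (by omega), hek _ (by omega), hek _ (by omega),
    show P.natDegree - (P.natDegree - (k - 1)) = k - 1 by omega,
    show P.natDegree - (P.natDegree - k) = k by omega,
    show P.natDegree - (P.natDegree - k - 1) = k + 1 by omega, div_mul_div_comm, div_pow,
    ← sq, div_le_div_iff_of_pos_right (by positivity)] at key
  exact key

end Pool.Agent.Helper74.EV2
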